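import Pool.Agent.H28.RC.Targets3
import Pool.Agent.H63.HK.DS

/-!
# The pole of the zeta function (`T_LGT`)
-/

set_option autoImplicit false

open NumberField Filter Topology

namespace Pool.Agent.H65.RC

open Pool.Agent.H28.RC

theorem Lc_triv (F : Type) [Field F] [NumberField F] {s : ℂ} (hs : 1 < s.re) :
    Lc (triv F) s = dedekindZeta F s := by
  rw [(Pool.Agent.H63.HK.ds F s hs).2]
  unfold Lc
  refine tsum_congr fun I => ?_
  have h : (triv F).ψ I.1 = 1 := if_neg I.2
  rw [h, one_mul]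

theorem PR_triv (F : Type) [Field F] [NumberField F] (s : ℝ) :
    PR (fun P => ((triv F).ψ P).re) s = PR (F := F) (fun _ => 1) s := by
  unfold PR
  refine tsum_congr fun P => ?_
  have h : (triv F).ψ P.1 = 1 := if_neg P.2.2
  simp only [h, Complex.one_re]

theorem pf_LGT (h1 : T_LGE) (_ : T_PSU) (_ : T_PRC) : T_LGT := by
  intro F _ _
  obtain ⟨C, hC⟩ := h1 F (triv F)
  have hr := dedekindZeta_residue_pos F
  have h2 : Tendsto (fun s : ℝ => ‖((s : ℂ) - 1) * dedekindZeta F s‖) (𝓝[>] 1)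
      (𝓝 (dedekindZeta_residue F)) := by
    have := (tendsto_sub_one_mul_dedekindZeta_nhdsGT F).norm
    rwa [Complex.norm_real, Real.norm_of_nonneg hr.le] at this
  have h3 : Tendsto (fun s : ℝ => Real.log ‖((s : ℂ) - 1) * dedekindZeta F s‖) (𝓝[>] 1)
      (𝓝 (Real.log (dedekindZeta_residue F))) := h2.log hr.ne'
  have h4 : ∀ᶠ s : ℝ in 𝓝[>] 1,
      |Real.log ‖((s : ℂ) - 1) * dedekindZeta F s‖| < |Real.log (dedekindZeta_residue F)| + 1 :=
    h3.abs.eventually_lt_const (lt_add_one _)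
  refine ⟨C + (|Real.log (dedekindZeta_residue F)| + 1), ?_⟩
  filter_upwards [h4, self_mem_nhdsWithin] with s h5 hs
  have hs : 1 < s := hs
  have hs' : 1 < (s : ℂ).re := hs
  obtain ⟨h6, h7⟩ := hC s hs
  rw [PR_triv, Lc_triv F hs'] at h7
  rw [Lc_triv F hs'] at h6
  have h8 : ‖(s : ℂ) - 1‖ = s - 1 := by
    rw [← Complex.ofReal_one, ← Complex.ofReal_sub, Complex.norm_real,
      Real.norm_of_nonneg (by linarith)]
  have h9 : Real.log ‖((s : ℂ) - 1) * dedekindZeta F s‖ =
      Real.log ‖dedekindZeta F s‖ - Real.log (1 / (s - 1)) := by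
    rw [norm_mul, h8, Real.log_mul (by linarith) (norm_ne_zero_iff.2 h6), one_div, Real.log_inv]
    ring
  rw [h9] at h5
  calc |PR (F := F) (fun _ => 1) s - Real.log (1 / (s - 1))|
      = |(PR (F := F) (fun _ => 1) s - Real.log ‖dedekindZeta F s‖) +
          (Real.log ‖dedekindZeta F s‖ - Real.log (1 / (s - 1)))| := by ring_nf
    _ ≤ |PR (F := F) (fun _ => 1) s - Real.log ‖dedekindZeta F s‖| +
          |Real.log ‖dedekindZeta F s‖ - Real.log (1 / (s - 1))| := abs_add_le _ _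
    _ ≤ _ := add_le_add h7 h5.le

end Pool.Agent.H65.RC
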